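import Pool.Agent.WAQ.StmtsM

/-! Row MEE of squad WAQ (MP_ff4683_nt): a matrix near the corner (port of Helper94_WAP/MEE). -/

set_option autoImplicit false

namespace Pool.Agent.WAQ.H67

open Classical

variable [Par]

section aux

variable {F : Type} [NormedField F] {ϖ : ℤ}

theorem um (h : IsLoc F ϖ) {x y : F} {M : ℝ} (hx : ‖x‖ < M) (hy : ‖y‖ < M) : ‖x + y‖ < M :=
  (h.ultra x y).trans_lt (max_lt hx hy)

theorem um_sub (h : IsLoc F ϖ) {x y : F} {M : ℝ} (hx : ‖x‖ < M) (hy : ‖y‖ < M) : ‖x - y‖ < M := by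
  rw [sub_eq_add_neg]
  exact um h hx (by rwa [norm_neg])

theorem um_eq (h : IsLoc F ϖ) {x y : F} (hx : ‖y‖ < ‖x‖) : ‖x + y‖ = ‖x‖ := by
  apply le_antisymm
  · exact (h.ultra x y).trans (max_le le_rfl hx.le)
  · by_contra hc
    have h1 : ‖(x + y) - y‖ < ‖x‖ := um_sub h (not_le.1 hc) hx
    rw [add_sub_cancel_right] at h1
    exact lt_irrefl _ h1

theorem core (lin : LinStmt) (h : IsLoc F ϖ) {d : F} (hd : d ≠ 0) {P Q : Pt d} {η : ℝ}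
    (hη1 : η ≤ 1)
    (hP : Big 1 P) (hQ : Big 1 Q) (hzP : zs P ≠ 0) (hQP : ‖zs Q‖ < η * ‖zs P‖)
    (hdP : ‖d‖ * ‖zs P‖ ^ 2 < η) (a b : ℤ) :
    Big 1 (sm a P + sm b Q) ∧
      ‖zs (sm a P + sm b Q) - am F a * zs P‖ < η * ‖zs P‖ := by
  have hz0 : 0 < ‖zs P‖ := norm_pos_iff.2 hzP
  obtain ⟨h1, h2⟩ := lin F ϖ h d hd a b P Q hP hQ
    (hQP.le.trans (mul_le_of_le_one_left (norm_nonneg _) hη1))
  refine ⟨h1, ?_⟩
  have e1 : zs (sm a P + sm b Q) - am F a * zs P =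
      (zs (sm a P + sm b Q) - (am F a * zs P + am F b * zs Q)) + am F b * zs Q := by ring
  rw [e1]
  refine um h ?_ ?_
  · refine h2.trans_lt ?_
    have t0 : 0 ≤ ‖d‖ * ‖zs P‖ ^ 2 := by positivity
    have e2 : ‖d‖ ^ 2 * ‖zs P‖ ^ 5 = (‖d‖ * ‖zs P‖ ^ 2) * (‖d‖ * ‖zs P‖ ^ 2) * ‖zs P‖ := by ring
    rw [e2]
    refine mul_lt_mul_of_pos_right ?_ hz0
    have : (‖d‖ * ‖zs P‖ ^ 2) * (‖d‖ * ‖zs P‖ ^ 2) ≤ (‖d‖ * ‖zs P‖ ^ 2) * 1 :=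
      mul_le_mul_of_nonneg_left (hdP.le.trans hη1) t0
    linarith
  · rw [norm_mul]
    exact (mul_le_of_le_one_left (norm_nonneg _) (h.int b)).trans_lt hQP

end aux

theorem mee (fra : FraStmt) (mzz : MzzStmt) (lin : LinStmt) (nrm : NrmStmt) : MeeStmt := by
  intro F _ ϖ h a b c e ρ hdet ha hc hρ
  haveI : Gd F := h.gd
  have two : (2 : F) ≠ 0 := h.two_ne
  obtain ⟨A, hA⟩ : ∃ A : F, A = am F a := ⟨_, rfl⟩
  obtain ⟨C, hC⟩ : ∃ C : F, C = am F c := ⟨_, rfl⟩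
  rw [← hA, ← hC]
  have hA0 : A ≠ 0 := by rw [hA]; exact h.am_ne ha
  have hC0 : C ≠ 0 := by rw [hC]; exact h.am_ne hc
  have hA1 : ‖A‖ ≤ 1 := by rw [hA]; exact h.int a
  have hC1 : ‖C‖ ≤ 1 := by rw [hC]; exact h.int c
  have hAp : 0 < ‖A‖ := norm_pos_iff.2 hA0
  have hCp : 0 < ‖C‖ := norm_pos_iff.2 hC0
  obtain ⟨η, hη0, hηA, hηC, hηρ, hη1⟩ :
      ∃ η : ℝ, 0 < η ∧ η < ‖A‖ ∧ η < ‖C‖ ∧ η < ρ * ‖A‖ ^ 2 ∧ η < 1 := by
    have hp : 0 < min (min ‖A‖ ‖C‖) (min (ρ * ‖A‖ ^ 2) 1) :=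
      lt_min (lt_min hAp hCp) (lt_min (by positivity) one_pos)
    obtain ⟨η, h1, h2⟩ := exists_between hp
    rw [lt_min_iff, lt_min_iff, lt_min_iff] at h2
    exact ⟨η, h1, h2.1.1, h2.1.2, h2.2.1, h2.2.2⟩
  have hA2 : ‖A‖ ^ 2 ≤ ‖A‖ := by nlinarith
  have hηρA : η < ρ * ‖A‖ := hηρ.trans_le (mul_le_mul_of_nonneg_left hA2 hρ.le)
  have hηρ' : η < ρ := by
    refine hηρA.trans_le ?_
    exact mul_le_of_le_one_right hρ.le hA1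
  refine ⟨η, hη0, ?_⟩
  intro z hz
  obtain ⟨hU, hz1, hz2, hz3⟩ := hz
  rw [sub_zero] at hz3
  obtain ⟨d, P, Q, hdn, rfl⟩ := nrm F ϖ h z hU
  have hd : d ≠ 0 := by
    rw [← norm_pos_iff]
    rcases hdn with h1 | h1
    · rw [h1]; exact one_pos
    · rw [h1]; exact h.uni
  have hr1 : 1 < 1 / η := by
    rw [lt_div_iff₀ hη0]
    linarith
  obtain ⟨m1, m2, m3, m4⟩ := mzz F ϖ h d hd P Q
  obtain ⟨hP0, hQ0⟩ := m1 hU
  have hP : Big 1 P := Or.inr (hr1.trans hz1)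
  have hQ : Big 1 Q := Or.inr (hr1.trans hz2)
  obtain ⟨hzP, hzQ, -, k1, -⟩ := m2 hP0 hP hQ0 hQ
  have hzp : 0 < ‖zs P‖ := norm_pos_iff.2 hzP
  have hQP : ‖zs Q‖ < η * ‖zs P‖ := by
    rw [k1, norm_div, div_lt_iff₀ hzp] at hz3
    exact hz3
  have eP := m3 hP0 hP
  have hdp : 0 < ‖d‖ := norm_pos_iff.2 hd
  have hdP : ‖d‖ * ‖zs P‖ ^ 2 < η := by
    have t0 : 0 < ‖d‖ * ‖zs P‖ ^ 2 := by positivity
    have t1 : 1 / η * (‖d‖ * ‖zs P‖ ^ 2) < 1 :=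
      (mul_lt_mul_of_pos_right hz1 t0).trans_eq eP
    rw [one_div, inv_mul_lt_iff₀ hη0, mul_one] at t1
    exact t1
  obtain ⟨bP, nP⟩ := core lin h hd hη1.le hP hQ hzP hQP hdP a b
  obtain ⟨bQ, nQ⟩ := core lin h hd hη1.le hP hQ hzP hQP hdP c e
  rw [← hA] at nP
  rw [← hC] at nQ
  obtain ⟨P', hP'⟩ : ∃ P' : Pt d, P' = sm a P + sm b Q := ⟨_, rfl⟩
  obtain ⟨Q', hQ'⟩ : ∃ Q' : Pt d, Q' = sm c P + sm e Q := ⟨_, rfl⟩
  rw [← hP'] at bP nP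
  rw [← hQ'] at bQ nQ
  -- the two quotients
  obtain ⟨δ1, hδ1, hzP'⟩ : ∃ δ1 : F, ‖δ1‖ < η ∧ zs P' = (A + δ1) * zs P := by
    refine ⟨(zs P' - A * zs P) / zs P, ?_, ?_⟩
    · rw [norm_div, div_lt_iff₀ hzp]
      exact nP
    · rw [add_mul, div_mul_cancel₀ _ hzP]
      ring
  obtain ⟨δ2, hδ2, hzQ'⟩ : ∃ δ2 : F, ‖δ2‖ < η ∧ zs Q' = (C + δ2) * zs P := by
    refine ⟨(zs Q' - C * zs P) / zs P, ?_, ?_⟩
    · rw [norm_div, div_lt_iff₀ hzp]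
      exact nQ
    · rw [add_mul, div_mul_cancel₀ _ hzP]
      ring
  have nA : ‖A + δ1‖ = ‖A‖ := um_eq h (hδ1.trans hηA)
  have nC : ‖C + δ2‖ = ‖C‖ := um_eq h (hδ2.trans hηC)
  have hAd : A + δ1 ≠ 0 := by
    rw [← norm_pos_iff, nA]
    exact hAp
  have hCd : C + δ2 ≠ 0 := by
    rw [← norm_pos_iff, nC]
    exact hCp
  have hzP'0 : zs P' ≠ 0 := by
    rw [hzP']
    exact mul_ne_zero hAd hzP
  have hzQ'0 : zs Q' ≠ 0 := by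
    rw [hzQ']
    exact mul_ne_zero hCd hzP
  have hP'0 : P' ≠ 0 := by
    intro h0
    rw [h0] at hzP'0
    exact hzP'0 zs_zero
  have hQ'0 : Q' ≠ 0 := by
    intro h0
    rw [h0] at hzQ'0
    exact hzQ'0 zs_zero
  obtain ⟨n1, n2, n3, n4⟩ := mzz F ϖ h d hd P' Q'
  obtain ⟨-, -, hU', -, k3⟩ := n2 hP'0 bP hQ'0 bQ
  have lP : ‖zs P'‖ ≤ ‖zs P‖ := by
    rw [hzP', norm_mul, nA]
    exact mul_le_of_le_one_left hzp.le hA1
  have lQ : ‖zs Q'‖ ≤ ‖zs P‖ := by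
    rw [hzQ', norm_mul, nC]
    exact mul_le_of_le_one_left hzp.le hC1
  have size : ∀ X T : ℝ, 0 < T → T ≤ ‖zs P‖ → X * (‖d‖ * T ^ 2) = 1 → 1 / ρ < X := by
    intro X T hT0 hT hX
    have t1 : 0 < ‖d‖ * T ^ 2 := by positivity
    have t2 : ‖d‖ * T ^ 2 ≤ ‖d‖ * ‖zs P‖ ^ 2 :=
      mul_le_mul_of_nonneg_left (pow_le_pow_left₀ hT0.le hT 2) hdp.le
    have t3 : ‖d‖ * T ^ 2 < ρ := (t2.trans_lt hdP).trans hηρ'
    have t4 : X = 1 / (‖d‖ * T ^ 2) := by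
      rw [eq_div_iff t1.ne']
      exact hX
    rw [t4]
    exact one_div_lt_one_div_of_lt t1 t3
  have hstep : actf a b c e (kum d P Q) = kum d P' Q' := by
    rw [hP', hQ']
    exact fra F two d P Q a b c e hd hU
  refine ⟨kum d P' Q', ⟨hU, hU', hdet, hstep.symm⟩, hU', ?_, ?_, ?_⟩
  · exact size _ ‖zs P'‖ (norm_pos_iff.2 hzP'0) lP (n3 hP'0 bP)
  · exact size _ ‖zs Q'‖ (norm_pos_iff.2 hzQ'0) lQ (n4 hQ'0 bQ)
  · have hq : zs Q' / zs P' = (C + δ2) / (A + δ1) := by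
      rw [hzP', hzQ', mul_div_mul_right _ _ hzP]
    have e0 : mz (kum d P' Q') - C / A =
        (mz (kum d P' Q') - zs Q' / zs P') + (zs Q' / zs P' - C / A) := by ring
    rw [e0]
    refine um h ?_ ?_
    · refine k3.trans_lt ?_
      have t1 : ‖zs Q' / zs P'‖ ≤ 1 / ‖A‖ := by
        rw [hq, norm_div, nA, nC]
        exact div_le_div_of_nonneg_right hC1 hAp.le
      have t2 : ‖d‖ * (max ‖zs P'‖ ‖zs Q'‖) ^ 2 < η := by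
        refine lt_of_le_of_lt ?_ hdP
        refine mul_le_mul_of_nonneg_left ?_ hdp.le
        exact pow_le_pow_left₀ ((norm_nonneg _).trans (le_max_left _ _)) (max_le lP lQ) 2
      have t3 : 0 ≤ ‖d‖ * (max ‖zs P'‖ ‖zs Q'‖) ^ 2 := by positivity
      calc ‖zs Q' / zs P'‖ * (‖d‖ * (max ‖zs P'‖ ‖zs Q'‖) ^ 2)
          ≤ 1 / ‖A‖ * (‖d‖ * (max ‖zs P'‖ ‖zs Q'‖) ^ 2) := mul_le_mul_of_nonneg_right t1 t3
        _ < 1 / ‖A‖ * η := mul_lt_mul_of_pos_left t2 (by positivity)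
        _ ≤ ρ := by
          rw [one_div, inv_mul_le_iff₀ hAp]
          linarith
    · rw [hq]
      have e5 : (C + δ2) / (A + δ1) - C / A = (A * δ2 - C * δ1) / (A * (A + δ1)) := by
        field_simp
        ring
      rw [e5, norm_div, norm_mul, nA, div_lt_iff₀ (by positivity)]
      have e6 : ‖A * δ2 - C * δ1‖ < η := by
        refine um_sub h ?_ ?_
        · rw [norm_mul]
          exact (mul_le_of_le_one_left (norm_nonneg _) hA1).trans_lt hδ2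
        · rw [norm_mul]
          exact (mul_le_of_le_one_left (norm_nonneg _) hC1).trans_lt hδ1
      calc ‖A * δ2 - C * δ1‖ < η := e6
        _ < ρ * ‖A‖ ^ 2 := hηρ
        _ = ρ * (‖A‖ * ‖A‖) := by ring

end Pool.Agent.WAQ.H67
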